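import Pool.Agent.H343.QF.StQ

set_option autoImplicit false
set_option linter.unusedSectionVars false

/-! # MP_9a852a_al, Q4 and Q8: injectivity radius and double cosets -/

namespace Pool.Agent.H216.QF

open Pool.Agent.TH68 Pool.Agent.Helper97.Hyp Pool.Agent.H343.AN Pool.Agent.H343.QF

theorem norm_pow {Γ : Type} [Group Γ] (W : WNorm Γ) (g : Γ) (n : ℕ) : W.ℓ (g ^ n) ≤ n * W.ℓ g := by
  induction n with
  | zero => rw [pow_zero, W.one', Nat.zero_mul]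
  | succ n ih =>
    rw [pow_succ]
    refine (W.mul_le _ _).trans ?_
    rw [Nat.add_mul, Nat.one_mul]
    omega

theorem norm_zpow {Γ : Type} [Group Γ] (W : WNorm Γ) (g : Γ) (j : ℤ) :
    W.ℓ (g ^ j) ≤ j.natAbs * W.ℓ g := by
  rcases Int.natAbs_eq j with h | h
  · have h1 : g ^ j = g ^ j.natAbs := by
      rw [← zpow_natCast, ← h]
    rw [h1]
    exact norm_pow W g _
  · have h1 : g ^ j = (g ^ j.natAbs)⁻¹ := by
      rw [← zpow_natCast, ← zpow_neg, ← h]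
    rw [h1, W.inv']
    exact norm_pow W g _

theorem q4 : S_q1 → S_q4 := by
  intro hq1 Γ _ W 𝒜 _ Y R hρ n hn hn1
  obtain ⟨A, r, -, -, -, h⟩ := hq1 Y R hn hn1 (pt W 1)
  have h1 := pd_le_dist (Y.Sne A) (pt W 1) (n • pt W 1)
  rw [smul_base, dist_def, out_pt, out_pt, inv_one, one_mul] at h1
  rw [smul_base] at h
  have h2 := Y.hδ
  have h3 := Y.hθ
  linarith

theorem q8 : S_q1 → S_q8 := by
  intro hq1 Γ _ W 𝒜 _ Y R hρ a b hL hb i j k l hi hj hn
  by_contra hn1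
  rw [abs_le] at hi hj
  obtain ⟨A, r, -, -, -, h⟩ := hq1 Y R hn hn1 (pt W 1)
  rw [smul_base] at h
  have h2 := Y.hδ
  have h3 := Y.hθ
  have e1 : pd (Y.S A) (pt W 1) (pt W (a ^ k)) ≤ Y.θ := by
    have := hL A 1 0 k
    rwa [zpow_zero, one_mul, one_mul] at this
  have e2 : pd (Y.S A) (pt W (a ^ k)) (pt W (a ^ k * b ^ j)) ≤ 3 := by
    refine (pd_le_dist (Y.Sne A) _ _).trans ?_
    rw [dist_def, out_pt, out_pt, inv_mul_cancel_left]
    have h4 := norm_zpow W b j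
    rw [hb, Nat.mul_one] at h4
    have h5 : j.natAbs ≤ 3 := by omega
    exact_mod_cast h4.trans h5
  have e3 : pd (Y.S A) (pt W (a ^ k * b ^ j)) (pt W (a ^ k * b ^ j * a ^ l)) ≤ Y.θ := by
    have := hL A (a ^ k * b ^ j) 0 l
    rwa [zpow_zero, mul_one] at this
  have e4 : pd (Y.S A) (pt W (a ^ k * b ^ j * a ^ l))
      (pt W (a ^ k * b ^ j * a ^ l * b ^ (-i))) ≤ 3 := by
    refine (pd_le_dist (Y.Sne A) _ _).trans ?_
    rw [dist_def, out_pt, out_pt, inv_mul_cancel_left]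
    have h4 := norm_zpow W b (-i)
    rw [hb, Nat.mul_one] at h4
    have h5 : (-i).natAbs ≤ 3 := by omega
    exact_mod_cast h4.trans h5
  have t1 := pd_tri (Y.Sne A) (pt W 1) (pt W (a ^ k)) (pt W (a ^ k * b ^ j * a ^ l * b ^ (-i)))
  have t2 := pd_tri (Y.Sne A) (pt W (a ^ k)) (pt W (a ^ k * b ^ j))
    (pt W (a ^ k * b ^ j * a ^ l * b ^ (-i)))
  have t3 := pd_tri (Y.Sne A) (pt W (a ^ k * b ^ j)) (pt W (a ^ k * b ^ j * a ^ l))
    (pt W (a ^ k * b ^ j * a ^ l * b ^ (-i)))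
  linarith

end Pool.Agent.H216.QF
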